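import Pool.Agent.Helper30.AC.Stmts

/-! Row COM of the sheet `Helper30/AC/Stmts.lean`. -/

set_option autoImplicit false

namespace Pool.Agent.Helper57.AC

open Filter Topology Set
open Pool.Agent.Helper30.AC

universe u

variable {E : Type u} [NormedAddCommGroup E] [NormedSpace ℝ E]

theorem dd_compact {K : Set E} (hK : IsCompact K) : IsCompact (DD K) := by
  have h : DD K = (fun p : ℝ × E => (p.1, p.1 • p.2)) '' (Icc (0:ℝ) 1 ×ˢ K) := by
    ext ⟨t, v⟩
    constructor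
    · rintro ⟨h0, h1, k, hk, hv⟩
      exact ⟨(t, k), ⟨⟨h0, h1⟩, hk⟩, by simp only at hv ⊢; rw [hv]⟩
    · rintro ⟨⟨s, k⟩, ⟨⟨h0, h1⟩, hk⟩, he⟩
      simp only [Prod.mk.injEq] at he
      obtain ⟨rfl, rfl⟩ := he
      exact ⟨h0, h1, k, hk, rfl⟩
  rw [h]
  exact (isCompact_Icc.prod hK).image (by fun_prop)

theorem dd_convex {K : Set E} (hK : Convex ℝ K) (h0 : (0 : E) ∈ K) : Convex ℝ (DD K) := by
  rintro ⟨t, v⟩ ⟨ht0, ht1, k, hk, hv⟩ ⟨s, w⟩ ⟨hs0, hs1, l, hl, hw⟩ a b ha hb hab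
  simp only at ht0 ht1 hv hs0 hs1 hw
  have hat : 0 ≤ a * t := mul_nonneg ha ht0
  have hbs : 0 ≤ b * s := mul_nonneg hb hs0
  refine ⟨?_, ?_, ?_⟩
  · simpa using add_nonneg hat hbs
  · have : a * t + b * s ≤ 1 := by nlinarith
    simpa using this
  · rcases (add_nonneg hat hbs).eq_or_lt with h | h
    · have hat' : a * t = 0 := by linarith
      have hbs' : b * s = 0 := by linarith
      refine ⟨0, h0, ?_⟩
      simp only [Prod.smul_mk, Prod.mk_add_mk, smul_zero]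
      rw [hv, hw, smul_smul, smul_smul, hat', hbs']
      simp
    · refine ⟨(a * t / (a * t + b * s)) • k + (b * s / (a * t + b * s)) • l,
        hK hk hl (div_nonneg hat h.le) (div_nonneg hbs h.le) ?_, ?_⟩
      · field_simp
      · simp only [Prod.smul_mk, Prod.mk_add_mk, smul_eq_mul]
        rw [hv, hw, smul_smul, smul_smul, smul_add, smul_smul, smul_smul,
          mul_div_cancel₀ _ h.ne', mul_div_cancel₀ _ h.ne']

theorem cc_compact {K : Set E} (hK : IsCompact K) : IsCompact (CC K) := by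
  have hD := dd_compact hK
  have h1 : IsCompact ((fun g : ℕ → ℝ × E => ((fun n => (g n).1, fun n => (g n).2) :
      (ℕ → ℝ) × (ℕ → E))) '' (Set.univ.pi fun _ : ℕ => DD K)) :=
    (isCompact_univ_pi fun _ => hD).image (by fun_prop)
  have h2 : IsClosed {q : (ℕ → ℝ) × (ℕ → E) |
      ∀ n, (q.1 n - q.1 (n + 1), q.2 n - q.2 (n + 1)) ∈ DD K} := by
    rw [ofPred_forall]
    refine isClosed_iInter fun n => ?_
    exact hD.isClosed.preimage (f := fun q : (ℕ → ℝ) × (ℕ → E) =>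
      (q.1 n - q.1 (n + 1), q.2 n - q.2 (n + 1))) (by fun_prop)
  have h3 : CC K = ((fun g : ℕ → ℝ × E => ((fun n => (g n).1, fun n => (g n).2) :
      (ℕ → ℝ) × (ℕ → E))) '' (Set.univ.pi fun _ : ℕ => DD K)) ∩
      {q : (ℕ → ℝ) × (ℕ → E) | ∀ n, (q.1 n - q.1 (n + 1), q.2 n - q.2 (n + 1)) ∈ DD K} := by
    ext q
    constructor
    · intro hq
      exact ⟨⟨fun n => (q.1 n, q.2 n), fun n _ => (hq n).1, rfl⟩, fun n => (hq n).2⟩
    · rintro ⟨⟨g, hg, rfl⟩, h⟩ n
      exact ⟨hg n (mem_univ n), h n⟩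
  rw [h3]
  exact h1.inter_right h2

theorem cc_convex {K : Set E} (hK : Convex ℝ K) (h0 : (0 : E) ∈ K) : Convex ℝ (CC K) := by
  intro q hq r hr a b ha hb hab n
  have h1 := dd_convex hK h0 (hq n).1 (hr n).1 ha hb hab
  have h2 := dd_convex hK h0 (hq n).2 (hr n).2 ha hb hab
  refine ⟨?_, ?_⟩
  · simpa using h1
  · convert h2 using 1
    ext
    · simp only [Prod.smul_mk, Prod.mk_add_mk, Prod.fst_add, Prod.smul_fst, Pi.add_apply,
        Pi.smul_apply, smul_eq_mul]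
      ring
    · simp only [Prod.smul_mk, Prod.mk_add_mk, Prod.snd_add, Prod.smul_snd, Pi.add_apply,
        Pi.smul_apply, smul_sub]
      abel

theorem ll_add (y : ℕ → E →L[ℝ] ℝ) (T S : ℕ → E) (a b : ℝ) :
    LL y (a • T + b • S) = a • LL y T + b • LL y S := by
  funext n i
  simp only [LL, rho, Pi.add_apply, Pi.smul_apply, smul_eq_mul]
  split_ifs with h
  · simp
  · simp

theorem ll_cont (y : ℕ → E →L[ℝ] ℝ) :
    Continuous fun q : (ℕ → ℝ) × (ℕ → E) => LL y q.2 := by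
  refine continuous_pi fun n => continuous_pi fun i => ?_
  simp only [LL, rho]
  split_ifs with h
  · exact (y i).continuous.comp ((continuous_apply n).comp continuous_snd)
  · exact continuous_const

/-- Row COM. -/
theorem st_COM : ST_COM.{u} := by
  intro E _ _ K y hK
  have h : XX K y = (fun q : (ℕ → ℝ) × (ℕ → E) => LL y q.2) '' CC K := by
    ext x
    constructor
    · rintro ⟨q, hq, rfl⟩
      exact ⟨q, hq, rfl⟩
    · rintro ⟨q, hq, rfl⟩
      exact ⟨q, hq, rfl⟩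
  constructor
  · rw [h]
    exact (cc_compact hK.1).image (ll_cont y)
  · rintro _ ⟨q, hq, rfl⟩ _ ⟨r, hr, rfl⟩ a b ha hb hab
    refine ⟨a • q + b • r, cc_convex hK.2.1 hK.2.2.1 hq hr ha hb hab, ?_⟩
    rw [← ll_add]
    rfl

end Pool.Agent.Helper57.AC
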